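import Pool.Agent.Q217.Poly.Suf

set_option autoImplicit false

namespace Pool.Agent.Results.MP_e7d137_lc.Characterization

open Q217.Poly

/-- Every partial polymatroid on the marginal scenario `M` is non-contextual if and only if
`M` is Vorob'ev-regular and any two different facets with at least two common elements have
exactly three elements each. -/
theorem result (n : ℕ) (M : Scenario n) :
    AllNonContextual M ↔ VorobevRegular M ∧
      ∀ F F' : Finset (Fin n), IsFacet M F → IsFacet M F' → F ≠ F' → 2 ≤ (F ∩ F').card →
        F.card = 3 ∧ F'.card = 3 :=
  characterization M

end Pool.Agent.Results.MP_e7d137_lc.Characterization
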