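import Pool.Agent.Q217.Poly.Suf

set_option autoImplicit false

namespace Pool.Agent.Results.MP_e7d137_lc.RegularContextual

open Q217.Poly

/-- The first facet. -/
def A : Finset (Fin 5) := {0, 1, 2}

/-- The second facet. -/
def B : Finset (Fin 5) := {0, 1, 3, 4}

/-- The marginal scenario on `Fin 5` with the facets `{0, 1, 2}` and `{0, 1, 3, 4}`. -/
def example5 : Scenario 5 where
  mem S := S ⊆ A ∨ S ⊆ B
  down S T h hTS := h.imp hTS.trans hTS.trans
  empty_mem := Or.inl (Finset.empty_subset _)

theorem hAB : ¬ A ⊆ B := by decide

theorem hBA : ¬ B ⊆ A := by decide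

theorem facetA : IsFacet example5 A := by
  refine ⟨Or.inl (Finset.Subset.refl _), fun S hS h => ?_⟩
  rcases hS with h' | h'
  · exact Finset.Subset.antisymm h' h
  · exact absurd (h.trans h') hAB

theorem facetB : IsFacet example5 B := by
  refine ⟨Or.inr (Finset.Subset.refl _), fun S hS h => ?_⟩
  rcases hS with h' | h'
  · exact absurd (h.trans h') hBA
  · exact Finset.Subset.antisymm h' h

theorem facets (F : Finset (Fin 5)) : IsFacet example5 F ↔ F = B ∨ F = A := by
  constructor
  · intro hF
    rcases hF.1 with h | h
    · exact Or.inr (hF.2 A facetA.1 h).symm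
    · exact Or.inl (hF.2 B facetB.1 h).symm
  · rintro (rfl | rfl)
    · exact facetB
    · exact facetA

theorem regular5 : VorobevRegular example5 := by
  refine ⟨[B, A], by decide, fun F => ?_, ⟨trivial, Or.inl rfl⟩, Or.inr ⟨A, by simp, ?_⟩⟩
  · rw [facets]
    simp
  · intro F' hF'
    rw [List.mem_singleton.1 hF']
    exact Finset.inter_subset_right

/-- There is a Vorob'ev-regular marginal scenario that carries a contextual partial
polymatroid: the two properties do not define the same class. -/
theorem result : ∃ (n : ℕ) (M : Scenario n), VorobevRegular M ∧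
    ∃ g : Finset (Fin n) → ℝ, IsPartialPolymatroid M g ∧ ¬ NonContextual M g := by
  refine ⟨5, example5, regular5, ?_⟩
  by_contra hcon
  push Not at hcon
  have h := ((characterization example5).1 hcon).2 A B facetA facetB (by decide) (by decide)
  exact absurd h.2 (by decide)

end Pool.Agent.Results.MP_e7d137_lc.RegularContextual
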